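import Pool.Agent.ASO.Stmts3
import Pool.Agent.Helper50_PP.Chi
import Pool.Agent.Helper75_PP.Corner

/-!
# Squad ASO, row MUL: products of the elements `f_c`
-/

open scoped BigOperators

noncomputable section

namespace Pool.Agent.PP.SO.H3

open Pool.Agent.Helper51_AWC Pool.Agent.Helper79_WRA Pool.Agent.PP Pool.Agent.PP.KF
open Pool.Agent.PP.K9 Pool.Agent.PP.K9.H97 Pool.Agent.PP.H75 Pool.Agent.PP.T3

attribute [local instance] Ideal.Quotient.field

section fcs

variable {V₀ G : Type} [CommGroup V₀] [Group G] [Finite G] {M : Ideal (integralClosure ℤ ℂ)}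
  [M.IsMaximal]

omit [Finite G] in
theorem C_anti {F : Type} (B : Bk F V₀ G) {W W' : Subgroup V₀} (h : W ≤ W') : B.C W' ≤ B.C W := by
  intro g hg
  rw [Bk.C, Subgroup.mem_centralizer_iff] at hg ⊢
  intro x hx
  apply hg
  exact Subgroup.map_mono h hx

omit [Finite G] in
theorem i_mem {F : Type} (B : Bk F V₀ G) (W : Subgroup V₀) (c : V₀) : B.i c ∈ B.C W := by
  rw [Bk.C, Subgroup.mem_centralizer_iff]
  rintro x ⟨w, _, rfl⟩
  rw [← map_mul, ← map_mul, mul_comm]

omit [Finite G] in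
theorem bh_supp (B : Bk (FF M) V₀ G) (W : Subgroup V₀) {g : G} (hg : g ∉ B.C W) :
    bh B W g = 0 := by
  unfold bh PP.ext0
  rw [dif_neg hg]

omit [Finite G] in
theorem fc_supp (B : Bk (FF M) V₀ G) (W : Subgroup V₀) (c : V₀) :
    ∀ g, g ∉ B.C W → fc B W c g = 0 := by
  intro g hg
  unfold fc
  rw [finsum_eq_zero_of_forall_eq_zero, mul_zero]
  intro z
  apply bh_supp
  intro h
  apply hg
  have h1 : (B.i c)⁻¹ * ((z : G)⁻¹ * g * z) ∈ B.C W := C_anti B le_sup_left h
  have h2 : (z : G)⁻¹ * g * z ∈ B.C W := by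
    have := (B.C W).mul_mem (i_mem B W c) h1
    rwa [mul_inv_cancel_left] at this
  have h3 := (B.C W).mul_mem ((B.C W).mul_mem z.2 h2) ((B.C W).inv_mem z.2)
  have e : (z : G) * ((z : G)⁻¹ * g * z) * (z : G)⁻¹ = g := by group
  rwa [e] at h3

omit [Finite G] in
theorem fc_cl (B : Bk (FF M) V₀ G) (W : Subgroup V₀) (c : V₀) (y : B.C W) (g : G) :
    fc B W c ((y : G) * g * (y : G)⁻¹) = fc B W c g := by
  unfold fc
  congr 1
  rw [← finsum_comp_equiv (Equiv.mulLeft y)]
  apply finsum_congr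
  intro z
  congr 1
  rw [Equiv.coe_mulLeft, Subgroup.coe_mul]
  group

theorem cv_eq (B : Bk (FF M) V₀ G) (W : Subgroup V₀) [Fintype (B.C W)] (c : V₀) (χ : G → ℂ) :
    cv (fc B W c) χ = H50.om (fun t : B.C W => fc B W c t) (fun t : B.C W => χ t) := by
  unfold cv H50.om
  rw [sum_sub (B.C W) _ (fun x hx => by rw [fc_supp B W c x hx, zero_mul]),
    finsum_eq_sum_of_fintype]
  rfl

end fcs

theorem mul (nsv : NsvStmt) : MulStmt := by
  intro ℓ _ M _ hM hℓ V₀ G _ _ _ _ E₀ hFr B hSy W hW c d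
  classical
  have hfin : Fintype (B.C W) := Fintype.ofFinite _
  obtain ⟨h1, h2, h3, _⟩ := nsv ℓ M hM hℓ V₀ G E₀ hFr B hSy W hW
  have hp : Nat.Prime ℓ := Fact.out
  have hU : B.U W ≠ 0 := by
    obtain ⟨q, hq, hUq⟩ := hSy.un W hW
    intro h0
    rw [h0] at hUq
    have hl : (ℓ : ℚ) ≠ 0 := by exact_mod_cast hp.ne_zero
    have hq1 : q = -((ℓ : ℚ)⁻¹) := by
      field_simp
      linarith
    have hden : q.den = ℓ := by
      rw [hq1, Rat.neg_den, Rat.inv_natCast_den_of_pos hp.pos]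
    exact hq (hden ▸ dvd_refl _)
  have hux : ∀ y, (ux B.U W y : ℚ) ≠ 0 := by
    intro y
    unfold ux
    split_ifs
    · exact one_ne_zero
    · exact hU
  suffices key : mulF (fc B W c) (fc B W d) = fun x =>
      ((ux B.U W c * ux B.U W d / ux B.U W (c * d) : ℚ) : ℂ) * fc B W (c * d) x by
    intro x
    exact congrFun key x
  apply eq_of_res (N := B.C W) (mulF_supp (B.C W) (fc_supp B W c) (fc_supp B W d))
    (fun x hx => by rw [fc_supp B W (c * d) x hx, mul_zero])
  rw [mulF_res (B.C W) _ (fc_supp B W c)]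
  set κ : ℂ := ((ux B.U W c * ux B.U W d / ux B.U W (c * d) : ℚ) : ℂ) with hκ
  have hcl : ∀ (v : V₀) (x y : B.C W), (fun t : B.C W => fc B W v t) (y * x * y⁻¹) =
      (fun t : B.C W => fc B W v t) x := fun v x y => fc_cl B W v y x
  have hm : mulF (fun t : B.C W => fc B W c t) (fun t : B.C W => fc B W d t) =
      fun y => ∑ h, (fun t : B.C W => fc B W c t) h * (fun t : B.C W => fc B W d t) (h⁻¹ * y) := by
    funext y
    unfold mulF
    rw [finsum_eq_sum_of_fintype]
  rw [hm, ← sub_eq_zero]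
  apply irr_complete
  · intro g h
    rw [Pi.sub_apply, Pi.sub_apply]
    congr 1
    · rw [← Equiv.sum_comp (MulAut.conj h).toEquiv]
      refine Finset.sum_congr rfl fun t _ => ?_
      have e1 : (MulAut.conj h).toEquiv t = h * t * h⁻¹ := rfl
      rw [e1]
      congr 1
      · exact hcl c t h
      · have e2 : (h * t * h⁻¹)⁻¹ * (h * g * h⁻¹) = h * (t⁻¹ * g) * h⁻¹ := by group
        rw [e2]
        exact hcl d (t⁻¹ * g) h
    · change κ * fc B W (c * d) ((h * g * h⁻¹ : B.C W) : G) = κ * fc B W (c * d) (g : G)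
      congr 1
      exact hcl (c * d) g h
  · intro χ' hχ'
    set χ : G → ℂ := H75.ext0 (B.C W) χ' with hχ
    have hχs : ∀ x, x ∉ B.C W → χ x = 0 := H75.ext0_supp _ _
    have hχr : (fun t : B.C W => χ t) = χ' := funext (H75.ext0_apply _ _)
    have hχi : (fun t : B.C W => χ t) ∈ Irr (B.C W) := by rw [hχr]; exact hχ'
    have hne : χ' 1 ≠ 0 := irr_one_ne hχ'
    have hcv : ∀ v, cv (fc B W v) χ = H50.om (fun t : B.C W => fc B W v t) χ' := by
      intro v
      rw [cv_eq, hχr]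
    have hmul := H50.om_mul (a := fun t : B.C W => fc B W c t)
      (b := fun t : B.C W => fc B W d t) (hcl d) hχ'
    have hval : cv (fc B W c) χ * cv (fc B W d) χ = κ * cv (fc B W (c * d)) χ := by
      by_cases hCh : χ ∈ Ch B W
      · rw [h2 χ hCh, h2 χ hCh, h2 χ hCh]
        have hlin := (h1.mapsTo hCh).2 c d
        rw [hlin, hκ]
        have h4 : ((ux B.U W (c * d) : ℚ) : ℂ) ≠ 0 := by exact_mod_cast hux (c * d)
        push_cast
        field_simp
      · rw [h3 χ hχs hχi hCh c, h3 χ hχs hχi hCh (c * d), zero_mul, mul_zero]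
    have hom : ∀ a : B.C W → ℂ, ∑ t, a t * χ' t = H50.om a χ' * χ' 1 := by
      intro a
      unfold H50.om
      rw [div_mul_cancel₀ _ hne]
    simp only [Pi.sub_apply, sub_mul, Finset.sum_sub_distrib]
    rw [sub_eq_zero]
    have e1 : ∑ x : B.C W, (∑ h : B.C W, fc B W c (h : G) *
          fc B W d ((h⁻¹ * x : B.C W) : G)) * χ' x =
        H50.om (fun t : B.C W => fc B W c t) χ' * H50.om (fun t : B.C W => fc B W d t) χ' *
          χ' 1 := by
      rw [← hmul, ← hom]
    have e2 : ∑ x : B.C W, κ * fc B W (c * d) (x : G) * χ' x =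
        κ * H50.om (fun t : B.C W => fc B W (c * d) t) χ' * χ' 1 := by
      rw [mul_assoc, ← hom, Finset.mul_sum]
      refine Finset.sum_congr rfl fun t _ => ?_
      rw [mul_assoc]
    rw [e1, e2, ← hcv, ← hcv, ← hcv, hval]

end Pool.Agent.PP.SO.H3
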