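import Pool.Agent.ASO.Stmts7
import Pool.Agent.Helper3_K9.Psi

/-!
# Squad ASO, row INF: inflation of idempotents
-/

open scoped BigOperators

noncomputable section

namespace Pool.Agent.PP.SO.H3

open Pool.Agent.Helper51_AWC Pool.Agent.Helper79_WRA Pool.Agent.PP Pool.Agent.PP.KF
open Pool.Agent.PP.K9 Pool.Agent.PP.K9.H97 Pool.Agent.PP.H75 Pool.Agent.PP.T3

attribute [local instance] Ideal.Quotient.field

section inflate

variable {F A B : Type} [Field F] [Group A] [Group B] [Finite A] [Finite B]

open Classical in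
theorem card_fibre [Fintype A] {π : A →* B} (hπ : Function.Surjective π) (y : B) :
    ∑ x : A, (if π x = y then (1 : F) else 0) = Nat.card π.ker := by
  obtain ⟨x0, rfl⟩ := hπ y
  rw [← Equiv.sum_comp (Equiv.mulLeft x0)]
  have h1 : ∀ k : A, (if π (Equiv.mulLeft x0 k) = π x0 then (1 : F) else 0) =
      if k ∈ π.ker then 1 else 0 := by
    intro k
    have h2 : π (Equiv.mulLeft x0 k) = π x0 ↔ k ∈ π.ker := by
      rw [Equiv.coe_mulLeft, map_mul, MonoidHom.mem_ker]
      exact mul_eq_left
    by_cases h : k ∈ π.ker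
    · rw [if_pos (h2.2 h), if_pos h]
    · rw [if_neg (fun h' => h (h2.1 h')), if_neg h]
  rw [Finset.sum_congr rfl fun k _ => h1 k, Finset.sum_ite, Finset.sum_const_zero, add_zero,
    Finset.sum_const, nsmul_eq_mul, mul_one, Nat.card_eq_fintype_card, Fintype.card_subtype]

theorem push_infl {π : A →* B} (hπ : Function.Surjective π) (hK : (Nat.card π.ker : F) ≠ 0)
    (b : B → F) : H75.push π (infl π b) = b := by
  classical
  have := Fintype.ofFinite A
  funext y
  rw [push_eq]
  have h1 : ∀ x : A, (if π x = y then infl π b x else 0) =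
      (Nat.card π.ker : F)⁻¹ * b y * (if π x = y then 1 else 0) := by
    intro x
    split_ifs with h
    · unfold infl
      rw [h, mul_one]
    · rw [mul_zero]
  rw [Finset.sum_congr rfl fun x _ => h1 x, ← Finset.mul_sum, card_fibre hπ]
  field_simp

theorem infl_mulF (π : A →* B) (a : B → F) (g : A → F) :
    mulF (infl π a) g = infl π (mulF a (H75.push π g)) := by
  have := Fintype.ofFinite A
  have := Fintype.ofFinite B
  funext x
  unfold infl mulF
  rw [finsum_eq_sum_of_fintype, finsum_eq_sum_of_fintype]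
  -- the left side
  have h1 : ∑ t, (Nat.card π.ker : F)⁻¹ * a (π t) * g (t⁻¹ * x) =
      ∑ u, (Nat.card π.ker : F)⁻¹ * (g u * a (π x * (π u)⁻¹)) := by
    rw [← Equiv.sum_comp ((Equiv.inv A).trans (Equiv.mulLeft x))]
    refine Finset.sum_congr rfl fun u _ => ?_
    have e1 : ((Equiv.inv A).trans (Equiv.mulLeft x)) u = x * u⁻¹ := rfl
    rw [e1, map_mul, map_inv, mul_inv_rev, inv_inv, inv_mul_cancel_right]
    ring
  have h2 : ∑ s, a s * H75.push π g (s⁻¹ * π x) = ∑ u, g u * a (π x * (π u)⁻¹) := by
    rw [← sum_push π g fun y => a (π x * y⁻¹),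
      ← Equiv.sum_comp ((Equiv.inv B).trans (Equiv.mulLeft (π x)))]
    refine Finset.sum_congr rfl fun y _ => ?_
    have e1 : ((Equiv.inv B).trans (Equiv.mulLeft (π x))) y = π x * y⁻¹ := rfl
    rw [e1, mul_inv_rev, inv_inv, inv_mul_cancel_right]
    ring
  rw [h1, h2, Finset.mul_sum]

theorem infl_isCl (π : A →* B) {a : B → F} (ha : IsCl a) : IsCl (infl π a) := by
  intro x y
  unfold infl
  rw [map_mul, map_mul, map_inv, ha]

end inflate

theorem card_ne {ℓ : ℕ} [hp : Fact ℓ.Prime] {M : Ideal (integralClosure ℤ ℂ)} [M.IsMaximal]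
    (hM : (ℓ : integralClosure ℤ ℂ) ∈ M) {n : ℕ} (hn : ¬ ℓ ∣ n) : (n : FF M) ≠ 0 := by
  intro h
  have h0 : (ℓ : FF M) = 0 := by
    have h1 := Ideal.Quotient.eq_zero_iff_mem.2 hM
    rw [map_natCast] at h1
    exact h1
  have hc : IsCoprime (n : ℤ) (ℓ : ℤ) :=
    Nat.isCoprime_iff_coprime.2 ((Nat.Prime.coprime_iff_not_dvd hp.out).2 hn).symm
  obtain ⟨u, v, huv⟩ := hc
  have h2 := congrArg (fun z : ℤ => (z : FF M)) huv
  simp only [Int.cast_add, Int.cast_mul, Int.cast_natCast, h, h0, mul_zero, add_zero,
    Int.cast_one] at h2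
  exact zero_ne_one h2

open Classical in
/-- a character on whose kernel the mean over `K` is not zero comes from the quotient -/
theorem factor {A B : Type} [Group A] [Group B] [Finite A] [Finite B] {π : A →* B}
    (hπ : Function.Surjective π) {χ : A → ℂ} (hχ : χ ∈ Irr A) [Fintype A]
    (hw : H50.om (fun t => if t ∈ π.ker then (1 : ℂ) else 0) χ = Nat.card π.ker) :
    ∃ κ ∈ Irr B, χ = fun x => κ (π x) := by
  obtain ⟨n, ρ, hρ, rfl⟩ := hχ
  have hcl : ∀ x y : A, (fun t => if t ∈ π.ker then (1 : ℂ) else 0) (y * x * y⁻¹) =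
      (fun t => if t ∈ π.ker then (1 : ℂ) else 0) x := by
    intro x y
    have h1 : y * x * y⁻¹ ∈ π.ker ↔ x ∈ π.ker := by
      rw [MonoidHom.mem_ker, MonoidHom.mem_ker, map_mul, map_mul, map_inv]
      constructor
      · intro h
        have h2 : π x = (π y)⁻¹ * (π y * π x * (π y)⁻¹) * π y := by group
        rw [h2, h]
        group
      · intro h
        rw [h]
        group
    simp only [h1]
  have hact := H50.act_om ρ (a := fun t => if t ∈ π.ker then (1 : ℂ) else 0) hcl
  rw [hw] at hact
  have hK : (Nat.card π.ker : ℂ) ≠ 0 := by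
    have : 0 < Nat.card π.ker := Nat.card_pos
    exact_mod_cast this.ne'
  -- the kernel acts trivially
  have hk : ∀ k ∈ π.ker, ρ k = 1 := by
    intro k hk
    have h1 : ρ k * act ρ (fun t => if t ∈ π.ker then (1 : ℂ) else 0) =
        act ρ (fun t => if t ∈ π.ker then (1 : ℂ) else 0) := by
      unfold act
      rw [Finset.mul_sum, ← Equiv.sum_comp (Equiv.mulLeft k)
        (fun t => (if t ∈ π.ker then (1 : ℂ) else 0) • ρ t)]
      refine Finset.sum_congr rfl fun t _ => ?_
      have e1 : Equiv.mulLeft k t = k * t := rfl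
      have h2 : k * t ∈ π.ker ↔ t ∈ π.ker := Subgroup.mul_mem_cancel_left _ hk
      rw [e1, map_mul]
      change ρ k * ((if t ∈ π.ker then (1 : ℂ) else 0) • ρ t) = _
      by_cases h : t ∈ π.ker
      · rw [if_pos h, if_pos (h2.2 h), one_smul, one_smul]
      · rw [if_neg h, if_neg (fun h' => h (h2.1 h')), zero_smul, zero_smul, mul_zero]
    rw [hact, mul_smul_comm] at h1
    have h3 := smul_right_injective _ hK h1
    have h4 : ρ k * LinearMap.id = ρ k := mul_one (ρ k)
    rw [h4] at h3
    exact h3
  have hkey : ∀ x x', π x = π x' → ρ x = ρ x' := by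
    intro x x' h
    have h1 : x'⁻¹ * x ∈ π.ker := by
      rw [MonoidHom.mem_ker, map_mul, map_inv, h, inv_mul_cancel]
    have h2 := hk _ h1
    calc ρ x = ρ (x' * (x'⁻¹ * x)) := by rw [mul_inv_cancel_left]
      _ = ρ x' := by rw [map_mul, h2, mul_one]
  let s : B → A := Function.surjInv hπ
  have hs : ∀ y, π (s y) = y := Function.surjInv_eq hπ
  let σ : Representation ℂ B (Fin n → ℂ) :=
    { toFun := fun y => ρ (s y)
      map_one' := by
        change ρ (s 1) = 1
        rw [← map_one ρ]
        apply hkey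
        rw [hs, map_one]
      map_mul' := fun y z => by
        change ρ (s (y * z)) = ρ (s y) * ρ (s z)
        rw [← map_mul]
        apply hkey
        rw [hs, map_mul, hs, hs] }
  have hσ : ∀ x, σ (π x) = ρ x := fun x => hkey _ _ (hs _)
  refine ⟨σ.character, ⟨n, σ, ?_, rfl⟩, ?_⟩
  · have f : Subrepresentation σ ≃o Subrepresentation ρ :=
      { toFun := fun S => ⟨S.toSubmodule, fun g v hv => by
          rw [← hσ]
          exact S.apply_mem_toSubmodule (π g) hv⟩
        invFun := fun S => ⟨S.toSubmodule, fun h v hv => by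
          obtain ⟨g, rfl⟩ := hπ h
          rw [hσ]
          exact S.apply_mem_toSubmodule g hv⟩
        left_inv := fun S => rfl
        right_inv := fun S => rfl
        map_rel_iff' := Iff.rfl }
    exact (OrderIso.isSimpleOrder_iff f).2 hρ
  · funext x
    change LinearMap.trace ℂ _ (ρ x) = LinearMap.trace ℂ _ (σ (π x))
    rw [hσ]

open Classical in
theorem om_ker {A B : Type} [Group A] [Group B] [Finite A] [Finite B] {π : A →* B}
    (hπ : Function.Surjective π) {χ : A → ℂ} (hχ : χ ∈ Irr A) [Fintype A] :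
    H50.om (fun t => if t ∈ π.ker then (1 : ℂ) else 0) χ = 0 ∨
      H50.om (fun t => if t ∈ π.ker then (1 : ℂ) else 0) χ = Nat.card π.ker := by
  have hcl : ∀ x y : A, (fun t => if t ∈ π.ker then (1 : ℂ) else 0) (y * x * y⁻¹) =
      (fun t => if t ∈ π.ker then (1 : ℂ) else 0) x := by
    intro x y
    have h1 : y * x * y⁻¹ ∈ π.ker ↔ x ∈ π.ker := by
      rw [MonoidHom.mem_ker, MonoidHom.mem_ker, map_mul, map_mul, map_inv]
      constructor
      · intro h
        have h2 : π x = (π y)⁻¹ * (π y * π x * (π y)⁻¹) * π y := by group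
        rw [h2, h]
        group
      · intro h
        rw [h]
        group
    simp only [h1]
  have h1 := H50.om_mul (a := fun t => if t ∈ π.ker then (1 : ℂ) else 0)
    (b := fun t => if t ∈ π.ker then (1 : ℂ) else 0) hcl hχ
  have h2 : (fun y : A => ∑ h, (fun t => if t ∈ π.ker then (1 : ℂ) else 0) h *
      (fun t => if t ∈ π.ker then (1 : ℂ) else 0) (h⁻¹ * y)) =
      fun y => (Nat.card π.ker : ℂ) * (if y ∈ π.ker then (1 : ℂ) else 0) := by
    funext y
    have h3 : ∀ h : A, (if h ∈ π.ker then (1 : ℂ) else 0) *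
        (if h⁻¹ * y ∈ π.ker then (1 : ℂ) else 0) =
        (if y ∈ π.ker then (1 : ℂ) else 0) * (if h ∈ π.ker then 1 else 0) := by
      intro h
      by_cases hh : h ∈ π.ker
      · have h4 : h⁻¹ * y ∈ π.ker ↔ y ∈ π.ker :=
          Subgroup.mul_mem_cancel_left _ (π.ker.inv_mem hh)
        simp only [h4, if_pos hh, one_mul, mul_one]
      · rw [if_neg hh, zero_mul, mul_zero]
    change ∑ h, (if h ∈ π.ker then (1 : ℂ) else 0) * (if h⁻¹ * y ∈ π.ker then (1 : ℂ) else 0) = _
    rw [Finset.sum_congr rfl fun h _ => h3 h, ← Finset.mul_sum, Finset.sum_ite,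
      Finset.sum_const_zero, add_zero, Finset.sum_const, nsmul_eq_mul, mul_one,
      Nat.card_eq_fintype_card, Fintype.card_subtype, mul_comm]
  rw [h2] at h1
  have h5 : H50.om (fun y => (Nat.card π.ker : ℂ) * (if y ∈ π.ker then (1 : ℂ) else 0)) χ =
      Nat.card π.ker * H50.om (fun t => if t ∈ π.ker then (1 : ℂ) else 0) χ := by
    unfold H50.om
    rw [← mul_div_assoc, Finset.mul_sum]
    congr 1
    refine Finset.sum_congr rfl fun t _ => ?_
    rw [mul_assoc]
  rw [h5] at h1
  by_cases h0 : H50.om (fun t => if t ∈ π.ker then (1 : ℂ) else 0) χ = 0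
  · exact Or.inl h0
  · exact Or.inr (mul_right_cancel₀ h0 h1).symm

/-- row INF -/
theorem inf : InfStmt := by
  intro ℓ _ M _ hM A B _ _ _ _ π hπ hℓ
  classical
  have hFA := Fintype.ofFinite A
  have hK : (Nat.card π.ker : FF M) ≠ 0 := card_ne hM hℓ
  have h1 : ∀ a b : B → FF M, mulF (infl π a) (infl π b) = infl π (mulF a b) := by
    intro a b
    rw [infl_mulF, push_infl hπ hK]
  have h2 : ∀ a : B → FF M, IsIdem a → IsIdem (infl π a) := fun a ha =>
    ⟨infl_isCl π ha.1, by rw [h1, ha.2]⟩
  have hpsi := (Pool.Agent.PP.K9.H3.psi M A B π hπ)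
  refine ⟨h1, h2, ?_, ?_⟩
  · rintro a ⟨ha, ha0, hab⟩
    refine ⟨h2 a ha, ?_, ?_⟩
    · intro h0
      apply ha0
      rw [← push_infl hπ hK a, h0, push_zero]
    · intro g hg
      rw [infl_mulF]
      rcases hab _ (push_isIdem hπ hg) with h | h
      · left
        rw [h]
      · right
        rw [h]
        funext x
        unfold infl
        rw [Pi.zero_apply, mul_zero]
        rfl
  · intro a ha
    have hp := (hpsi (infl π a) (h2 a ha).1).1
    rw [push_infl hπ hK] at hp
    ext χ
    constructor
    · rintro ⟨hχ, hχ1⟩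
      -- the mean over the kernel
      have hε : mulF (infl π a) (infl π (one1 : B → FF M)) = infl π a := by
        rw [h1]
        congr 1
        funext x
        have hFB := Fintype.ofFinite B
        unfold mulF one1
        rw [finsum_eq_sum_of_fintype, Finset.sum_eq_single x]
        · rw [inv_mul_cancel, if_pos rfl, mul_one]
        · intro t _ ht
          rw [if_neg, mul_zero]
          intro h
          exact ht (inv_mul_eq_one.1 h)
        · intro h
          exact absurd (Finset.mem_univ x) h
      have hone : IsCl (one1 : B → FF M) := by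
        intro x y
        unfold one1
        have : y * x * y⁻¹ = 1 ↔ x = 1 := by
          constructor
          · intro h
            have h3 : x = y⁻¹ * (y * x * y⁻¹) * y := by group
            rw [h3, h]
            group
          · rintro rfl
            group
        simp only [this]
      have h3 := H50.res_mul (M := M) (h2 a ha).1 (infl_isCl π hone) hχ
      rw [hε, hχ1, one_mul] at h3
      -- compute
      have hcl : H50.Cl (fun t : A => if t ∈ π.ker then (1 : integralClosure ℤ ℂ) else 0) := by
        intro x y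
        have h4 : y * x * y⁻¹ ∈ π.ker ↔ x ∈ π.ker := by
          rw [MonoidHom.mem_ker, MonoidHom.mem_ker, map_mul, map_mul, map_inv]
          constructor
          · intro h
            have h5 : π x = (π y)⁻¹ * (π y * π x * (π y)⁻¹) * π y := by group
            rw [h5, h]
            group
          · intro h
            rw [h]
            group
        simp only [h4]
      have h5 := (H50.res_irr (M := M) _ hcl hχ).1
      have h6 : infl π (one1 : B → FF M) = (Nat.card π.ker : FF M)⁻¹ •
          fun t : A => Ideal.Quotient.mk M (if t ∈ π.ker then (1 : integralClosure ℤ ℂ) else 0) := by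
        funext t
        rw [Pi.smul_apply, smul_eq_mul]
        unfold infl one1
        congr 1
        by_cases ht : t ∈ π.ker
        · rw [if_pos ht, if_pos (MonoidHom.mem_ker.1 ht), map_one]
        · rw [if_neg ht, if_neg (fun h => ht (MonoidHom.mem_ker.2 h)), map_zero]
      rw [h6, H50.res_smul, h5] at h3
      have h7 : (fun t : A => ((if t ∈ π.ker then (1 : integralClosure ℤ ℂ) else 0 :
          integralClosure ℤ ℂ) : ℂ)) = fun t => if t ∈ π.ker then (1 : ℂ) else 0 := by
        funext t
        split_ifs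
        · rfl
        · rfl
      rw [h7] at h3
      rcases om_ker hπ hχ with h | h
      · exfalso
        rw [h, red_zero, mul_zero] at h3
        exact one_ne_zero h3
      · obtain ⟨κ, hκ, hκχ⟩ := factor hπ hχ h
        refine ⟨κ, ?_, hκχ⟩
        rw [hp]
        refine ⟨hκ, ?_⟩
        rw [← hκχ]
        exact ⟨hχ, hχ1⟩
    · rintro ⟨κ, hκ, rfl⟩
      rw [hp] at hκ
      exact hκ.2

end Pool.Agent.PP.SO.H3
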